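import Pool.Agent.H79.TD.Stm
import Pool.Agent.H6.TC.Mr3

/-!
# COR and CHI
-/

set_option autoImplicit false

open MvPolynomial

namespace Pool.Agent.H6.TD

open Pool.Agent.H77.TF Pool.Agent.H79.TD Pool.Agent.H6.TC

section

variable {K : Type} [Field K]

/-- The factors of a form are forms. -/
theorem hom_factor {p q : MvPolynomial (Fin 3) K} {n : ℕ} (h : (p * q).IsHomogeneous n)
    (hp : p ≠ 0) (hq : q ≠ 0) :
    p.IsHomogeneous p.totalDegree ∧ p.totalDegree + q.totalDegree = n := by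
  have h1 : p.totalDegree + q.totalDegree = n := by
    rw [← totalDegree_mul_of_isDomain hp hq]
    exact h.totalDegree (mul_ne_zero hp hq)
  refine ⟨?_, h1⟩
  have hord : (n : ℕ∞) ≤ (p : MvPowerSeries (Fin 3) K).order +
      (q : MvPowerSeries (Fin 3) K).order := by
    rw [← MvPowerSeries.order_mul, ← MvPolynomial.coe_mul]
    refine MvPowerSeries.le_order fun d hd => ?_
    rw [MvPolynomial.coeff_coe]
    refine h.coeff_eq_zero ?_
    have : d.degree < n := by exact_mod_cast hd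
    omega
  have hqo : (q : MvPowerSeries (Fin 3) K).order ≤ (q.totalDegree : ℕ∞) := by
    obtain ⟨s, hs⟩ := support_nonempty.2 hq
    refine le_trans (MvPowerSeries.order_le (d := s) ?_) ?_
    · rw [MvPolynomial.coeff_coe]
      exact mem_support_iff.1 hs
    · have := le_totalDegree hs
      exact_mod_cast this
  intro s hs
  have e1 : (p : MvPowerSeries (Fin 3) K).order ≤ (s.degree : ℕ∞) :=
    MvPowerSeries.order_le (d := s) (by rw [MvPolynomial.coeff_coe]; exact hs)
  have e2 : (n : ℕ∞) ≤ (s.degree : ℕ∞) + (q.totalDegree : ℕ∞) :=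
    hord.trans (add_le_add e1 hqo)
  have e3 : n ≤ s.degree + q.totalDegree := by exact_mod_cast e2
  have e4 : s.degree ≤ p.totalDegree := le_totalDegree (mem_support_iff.2 hs)
  change (Finsupp.weight (fun _ : Fin 3 => 1)) s = p.totalDegree
  rw [← Finsupp.degree_eq_weight_one]
  omega

theorem eval_lin (a : Fin 3 → K) (x : Fin 3 → K) : eval x (lin a) = ∑ j, a j * x j := by
  unfold lin
  rw [map_sum]
  exact Finset.sum_congr rfl fun j _ => by rw [map_mul, eval_C, eval_X]

theorem eval_Q [Fintype K] {ν : Type} [Fintype ν] (A : ν → Fin 3 → K) {x : Fin 3 → K}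
    (hx : x ∈ Pts A) : eval x (∏ i, lin (A i)) ≠ 0 := by
  rw [map_prod]
  refine Finset.prod_ne_zero_iff.2 fun i _ => ?_
  rw [eval_lin]
  exact hx i

end

theorem t_COR : S_COR := by
  intro K _ _ ν _ A α f g φ ψ hf0 hf hmin hD hgf
  obtain ⟨f1, g1, h, hrel, rfl, rfl⟩ := UniqueFactorizationMonoid.exists_reduced_factors f hf0 g
  have hh0 : h ≠ 0 := left_ne_zero_of_mul hf0
  have hf10 : f1 ≠ 0 := right_ne_zero_of_mul hf0
  have h1 : ∀ i, g1 * φ i = f1 * ψ i := by
    intro i
    have h2 : (h * g1) * φ i = (h * f1) * ψ i := congrFun hgf i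
    rw [mul_assoc, mul_assoc] at h2
    exact mul_left_cancel₀ hh0 h2
  have h2 : ∀ i, f1 ∣ φ i := fun i => hrel.dvd_of_dvd_mul_left ⟨ψ i, h1 i⟩
  choose χ hχ using h2
  have hφ : φ = f1 • χ := by
    ext1 i
    exact hχ i
  have h3 : D3 χ = h * ∏ i, lin (A i) := by
    rw [hφ, D3_smul] at hD
    refine mul_left_cancel₀ hf10 ?_
    rw [hD]
    ring
  have h4 : ∀ x ∈ Pts A, eval x h = 0 := by
    intro x hx
    have h5 := D3_eval χ x
    rw [h3, map_mul] at h5
    exact (mul_eq_zero.1 h5).resolve_right (eval_Q A hx)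
  obtain ⟨h5, h6⟩ := hom_factor hf.1 hh0 hf10
  have h7 : α ≤ h.totalDegree := by
    by_contra hlt
    have h8 := hmin _ (not_le.1 hlt)
    have h9 : h ∈ VD A h.totalDegree := ⟨h5, h4⟩
    rw [h8, Submodule.mem_bot] at h9
    exact hh0 h9
  have h8 : f1.totalDegree = 0 := by omega
  have h9 : f1 = C (coeff 0 f1) := totalDegree_eq_zero_iff_eq_C.1 h8
  have h10 : coeff 0 f1 ≠ 0 := by
    intro h11
    rw [h11, C_0] at h9
    exact hf10 h9
  refine ⟨C (coeff 0 f1)⁻¹ * g1, ?_⟩
  have h11 : h * f1 * (C (coeff 0 f1)⁻¹ * g1) = h * (f1 * C (coeff 0 f1)⁻¹) * g1 := by ring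
  rw [h11]
  congr 1
  have h12 : f1 * C (coeff 0 f1)⁻¹ = 1 := by
    conv_lhs => rw [h9]
    rw [coeff_C, if_pos rfl, ← C_mul, mul_inv_cancel₀ h10, C_1]
  rw [h12, mul_one]

theorem van_eval {K : Type} [Field K] {ν : Type} (A : ν → Fin 3 → K)
    {p : MvPolynomial (Fin 3) K} (hp : p ∈ van A) {x : Fin 3 → K} (hx : x ∈ Pts A) :
    eval x p = 0 := by
  have h1 : van A ≤ RingHom.ker (eval x) := by
    refine Ideal.span_le.2 ?_
    rintro f ⟨-, hf⟩
    exact hf x hx
  exact h1 hp

theorem minor_mem {K : Type} [Field K] [Fintype K] {ν : Type} (A : ν → Fin 3 → K) (i j : Fin 3) :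
    (X i * X j ^ Fintype.card K - X j * X i ^ Fintype.card K : MvPolynomial (Fin 3) K) ∈ van A := by
  refine Ideal.subset_span ⟨⟨1 + Fintype.card K, ?_⟩, fun x _ => ?_⟩
  · have h2 : ∀ i j : Fin 3, (X i * X j ^ Fintype.card K : MvPolynomial (Fin 3) K).IsHomogeneous
        (1 + Fintype.card K) := by
      intro i j
      have h3 := (isHomogeneous_X K j).pow (Fintype.card K)
      rw [one_mul] at h3
      exact (isHomogeneous_X K i).mul h3
    exact (h2 i j).sub (h2 j i)
  · simp only [map_sub, map_mul, map_pow, eval_X, FiniteField.pow_card]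
    ring

theorem coeff_low {K : Type} [Field K] {f : MvPolynomial (Fin 3) K} {u : ℕ}
    (hf : f.IsHomogeneous u) (a : MvPolynomial (Fin 3) K) (d : Fin 3 →₀ ℕ) (hd : d.degree < u) :
    coeff d (a * f) = 0 := by
  classical
  rw [coeff_mul]
  refine Finset.sum_eq_zero fun x hx => ?_
  rw [Finset.HasAntidiagonal.mem_antidiagonal] at hx
  have h1 : x.2.degree ≤ d.degree := by
    rw [← hx, map_add]
    exact Nat.le_add_left _ _
  rw [hf.coeff_eq_zero (by omega), mul_zero]

theorem t_CHI (hBEZ : S_BEZ) (hINQ : S_INQ) (hGC3 : S_GC3) : S_CHI := by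
  intro K _ _ ν _ _ A u v f g hA hne huv hf hg hd hvan
  obtain ⟨x, hx⟩ := hne
  have hfv : f ∈ van A := by
    rw [hvan]
    exact Ideal.subset_span (Set.mem_insert _ _)
  have hf0 : f ≠ 0 := by
    rintro rfl
    have h1 : van A = Ideal.span {g} := by
      rw [hvan, Ideal.span_insert_zero]
    have h2 : ∀ i j : Fin 3, g ∣ (X i * X j ^ Fintype.card K - X j * X i ^ Fintype.card K :
        MvPolynomial (Fin 3) K) := by
      intro i j
      rw [← Ideal.mem_span_singleton, ← h1]
      exact minor_mem A i j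
    have h3 : IsUnit g := hGC3 K g (h2 0 1) (h2 0 2) (h2 1 2)
    have h4 : (1 : MvPolynomial (Fin 3) K) ∈ van A := by
      rw [h1, Ideal.mem_span_singleton]
      exact h3.dvd
    have h5 := van_eval A h4 hx
    rw [map_one] at h5
    exact one_ne_zero h5
  have hmin : ∀ k < u, VD A k = ⊥ := by
    intro k hk
    rw [Submodule.eq_bot_iff]
    rintro h ⟨h1, h2⟩
    have h3 : h ∈ Ideal.span {f, g} := by
      rw [← hvan]
      exact Ideal.subset_span ⟨⟨k, h1⟩, h2⟩
    obtain ⟨a, b, rfl⟩ := Ideal.mem_span_pair.1 h3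
    ext d
    rw [coeff_zero]
    by_cases hdk : d.degree = k
    · rw [coeff_add, coeff_low hf a d (by omega), coeff_low hg b d (by omega), add_zero]
    · exact h1.coeff_eq_zero hdk
  have hu : 1 ≤ u := by
    by_contra hlt
    have hu0 : u = 0 := by omega
    subst hu0
    have h1 : f.totalDegree = 0 := hf.totalDegree hf0
    have h2 := totalDegree_eq_zero_iff_eq_C.1 h1
    have h3 := van_eval A hfv hx
    rw [h2, eval_C] at h3
    rw [h3, C_0] at h2
    exact hf0 h2
  have hfV : f ∈ VD A u := ⟨hf, fun y hy => van_eval A hfv hy⟩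
  refine ⟨hu, le_antisymm (hBEZ K ν A u v f g ⟨x, hx⟩ hf hg hvan) ?_, hmin⟩
  exact hINQ K ν A u v f hA hf0 hfV hmin hu hd

end Pool.Agent.H6.TD
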