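import Pool.Agent.H79.TD.Stm3
import Pool.Agent.H77.TF.Pri
import Pool.Agent.H77.TF.Det
import Pool.Agent.H27.TF.Sai

/-!
# SAC: the converse of Saito's criterion
-/

set_option autoImplicit false

open MvPolynomial Module

namespace Pool.Agent.H6.TD

open Pool.Agent.H77.TF Pool.Agent.H79.TD

/-- the determinant of a basis divides the determinants of logarithmic fields -/
theorem basis_dvd {K : Type} [Field K] {ν : Type} {A : ν → Fin 3 → K}
    (b : Basis (Fin 3) (MvPolynomial (Fin 3) K) (LD A))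
    (w : Fin 3 → Fin 3 → MvPolynomial (Fin 3) K) (hw : ∀ k, w k ∈ LD A) :
    (Matrix.of fun k => (b k : Fin 3 → MvPolynomial (Fin 3) K)).det ∣ (Matrix.of w).det := by
  obtain ⟨R, hR⟩ : ∃ R : Matrix (Fin 3) (Fin 3) (MvPolynomial (Fin 3) K),
      R = Matrix.of fun k j => b.repr ⟨w k, hw k⟩ j := ⟨_, rfl⟩
  have h1 : R * (Matrix.of fun j => (b j : Fin 3 → MvPolynomial (Fin 3) K)) = Matrix.of w := by
    ext1 k i'
    rw [Matrix.mul_apply, hR]
    have h2 := congrArg (fun w : LD A => (w : Fin 3 → MvPolynomial (Fin 3) K) i')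
      (b.sum_repr ⟨w k, hw k⟩)
    simp only [] at h2
    rw [AddSubmonoidClass.coe_finsetSum, Finset.sum_apply] at h2
    exact h2
  rw [← h1, Matrix.det_mul]
  exact dvd_mul_left _ _

/-- the fields used -/
noncomputable def ww {K : Type} [Field K] (a : Fin 3 → K) (P Q : MvPolynomial (Fin 3) K) (j t s : Fin 3) :
    MvPolynomial (Fin 3) K :=
  if t = j then (if s = j then Q else 0)
  else P * (if s = t then C (a j) else if s = j then -C (a t) else 0)

theorem ww_det {K : Type} [Field K] (a : Fin 3 → K) (P Q : MvPolynomial (Fin 3) K) (j : Fin 3) :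
    (Matrix.of (ww a P Q j)).det = P ^ 2 * Q * C (a j) ^ 2 := by
  rw [Matrix.det_fin_three]
  fin_cases j <;> simp [ww] <;> ring

theorem ww_evl {K : Type} [Field K] (a a' : Fin 3 → K) (P Q : MvPolynomial (Fin 3) K)
    (j t : Fin 3) : evl a' (ww a P Q j t) =
      if t = j then C (a' j) * Q else P * (C (a' t) * C (a j) - C (a' j) * C (a t)) := by
  unfold evl
  rw [Fin.sum_univ_three]
  fin_cases j <;> fin_cases t <;> simp [ww] <;> ring

theorem t_SAC : S_SAC := by
  classical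
  intro K _ ν _ A hA b
  obtain ⟨Q, hQ⟩ : ∃ Q, Q = ∏ i, lin (A i) := ⟨_, rfl⟩
  have hQ0 : Q ≠ 0 := by
    rw [hQ]
    exact Finset.prod_ne_zero_iff.2 fun i _ => lin_ne_zero (hA.1 i)
  have hlQ : ∀ k, lin (A k) ∣ Q := fun k => by
    rw [hQ]
    exact Finset.dvd_prod_of_mem _ (Finset.mem_univ k)
  rw [← hQ]
  obtain ⟨δ, hδ⟩ : ∃ δ, δ = (Matrix.of fun k => (b k : Fin 3 → MvPolynomial (Fin 3) K)).det :=
    ⟨_, rfl⟩
  rw [← hδ]
  have hQδ : Q ∣ δ := by
    rw [hQ, hδ]
    refine Pool.Agent.H27.TF.prod_dvd pri hA _ fun i _ => ?_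
    exact det K 3 _ (hA.1 i) _ fun k => (b k).2 i
  obtain ⟨τ, hτ⟩ := hQδ
  have hdv : ∀ w : Fin 3 → Fin 3 → MvPolynomial (Fin 3) K, (∀ k, w k ∈ LD A) →
      Q * τ ∣ (Matrix.of w).det := fun w hw => by
    rw [← hτ, hδ]
    exact basis_dvd b w hw
  -- `τ` divides `P_i ^ 2 * const`
  have hP : ∀ (i : ν), τ ∣ (∏ k ∈ Finset.univ.erase i, lin (A k)) ^ 2 := by
    intro i
    obtain ⟨P, hPd⟩ : ∃ P, P = ∏ k ∈ Finset.univ.erase i, lin (A k) := ⟨_, rfl⟩
    rw [← hPd]
    obtain ⟨j, hj⟩ : ∃ j, A i j ≠ 0 := by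
      by_contra hc
      push Not at hc
      exact hA.1 i (funext hc)
    have h1 := hdv (ww (A i) P Q j) (by
      intro t k
      rw [ww_evl]
      split_ifs with h
      · exact dvd_mul_of_dvd_right (hlQ k) _
      · by_cases hki : k = i
        · rw [hki]
          have : C (A i t) * C (A i j) - C (A i j) * C (A i t) = (0 : MvPolynomial (Fin 3) K) := by
            ring
          rw [this, mul_zero]
          exact dvd_zero _
        · refine dvd_mul_of_dvd_left ?_ _
          rw [hPd]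
          exact Finset.dvd_prod_of_mem _ (Finset.mem_erase.2 ⟨hki, Finset.mem_univ _⟩))
    rw [ww_det] at h1
    have h2 : Q * τ ∣ Q * (P ^ 2 * C (A i j) ^ 2) := by
      have : P ^ 2 * Q * C (A i j) ^ 2 = Q * (P ^ 2 * C (A i j) ^ 2) := by ring
      rwa [this] at h1
    have h3 := (mul_dvd_mul_iff_left hQ0).1 h2
    have hu : IsUnit (C (A i j) ^ 2 : MvPolynomial (Fin 3) K) :=
      ((IsUnit.mk0 _ hj).map C).pow 2
    exact (hu.dvd_mul_right).1 h3
  have hτQ : τ ∣ Q ^ 2 := by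
    have h1 := hdv (fun t s => if s = t then Q else 0) (by
      intro t k
      have : evl (A k) (fun s => if s = t then Q else 0) = C (A k t) * Q := by
        unfold evl
        simp
      rw [this]
      exact dvd_mul_of_dvd_right (hlQ k) _)
    have h2 : (Matrix.of fun t s : Fin 3 => if s = t then Q else 0).det = Q * Q ^ 2 := by
      rw [Matrix.det_fin_three]
      simp
      ring
    rw [h2] at h1
    exact (mul_dvd_mul_iff_left hQ0).1 h1
  have hτ0 : τ ≠ 0 := by
    rintro rfl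
    exact pow_ne_zero 2 hQ0 (zero_dvd_iff.1 hτQ)
  have hunit : IsUnit τ := by
    by_contra hnu
    obtain ⟨π, hπ, hd⟩ := WfDvdMonoid.exists_irreducible_factor hnu hτ0
    have hπp : Prime π := hπ.prime
    have h1 : π ∣ Q := hπp.dvd_of_dvd_pow (hd.trans hτQ)
    rw [hQ, hπp.dvd_finsetProd_iff] at h1
    obtain ⟨i, -, hi⟩ := h1
    have hpi := (pri K 3 (A i) (hA.1 i)).1
    have hass : Associated π (lin (A i)) := hπ.associated_of_dvd hpi.irreducible hi
    have h2 : lin (A i) ∣ (∏ k ∈ Finset.univ.erase i, lin (A k)) ^ 2 :=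
      (hass.symm.dvd.trans hd).trans (hP i)
    have h3 := hpi.dvd_of_dvd_pow h2
    rw [hpi.dvd_finsetProd_iff] at h3
    obtain ⟨k, hk, hkd⟩ := h3
    obtain ⟨c, hc⟩ := (pri K 3 (A i) (hA.1 i)).2 _ hkd
    exact hA.2 k i (Finset.ne_of_mem_erase hk) c hc
  obtain ⟨c, hc, hτc⟩ := MvPolynomial.isUnit_iff_eq_C_of_isReduced.1 hunit
  exact ⟨c, hc.ne_zero, by rw [hτ, hτc, mul_comm]⟩

end Pool.Agent.H6.TD
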