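import Pool.Agent.H79.TD.Stm2
import Pool.Agent.H77.TF.Pri

/-!
# MUL
-/

set_option autoImplicit false

open MvPolynomial Module

namespace Pool.Agent.H6.TD

open Pool.Agent.H77.TF Pool.Agent.H79.TD

theorem t_MUL : S_MUL := by
  classical
  intro K _ _ ν _ A u W hA hV hW
  obtain ⟨B, -⟩ : ∃ B : Basis (Fin 2) K W, True := ⟨finBasisOfFinrankEq K W hW, trivial⟩
  obtain ⟨w0, hw0⟩ : ∃ w0 : Fin 3 → K, w0 = (B 0 : Fin 3 → K) := ⟨_, rfl⟩
  obtain ⟨w1, hw1⟩ : ∃ w1 : Fin 3 → K, w1 = (B 1 : Fin 3 → K) := ⟨_, rfl⟩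
  have hind : ∀ α β : K, α • w0 + β • w1 = 0 → α = 0 ∧ β = 0 := by
    intro α β h
    have h1 : α • B 0 + β • B 1 = 0 := by
      apply Subtype.ext
      rw [hw0, hw1] at h
      exact h
    have h2 := Fintype.linearIndependent_iff.1 B.linearIndependent ![α, β] (by
      rw [Fin.sum_univ_two]
      exact h1)
    exact ⟨h2 0, h2 1⟩
  have hgen : ∀ w ∈ W, ∃ α β : K, w = α • w0 + β • w1 := by
    intro w hw
    have h := B.sum_repr ⟨w, hw⟩
    rw [Fin.sum_univ_two] at h
    refine ⟨B.repr ⟨w, hw⟩ 0, B.repr ⟨w, hw⟩ 1, ?_⟩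
    have h2 := congrArg (fun z : W => (z : Fin 3 → K)) h
    rw [hw0, hw1]
    exact h2.symm
  obtain ⟨rep, hrep⟩ : ∃ rep : Option K → (Fin 3 → K),
      rep = fun o => Option.elim o w0 (fun t => w1 + t • w0) := ⟨_, rfl⟩
  have hrn : rep none = w0 := by rw [hrep]; rfl
  have hrs : ∀ t, rep (some t) = w1 + t • w0 := fun t => by rw [hrep]; rfl
  have hrep0 : ∀ o, rep o ≠ 0 := by
    intro o h
    rcases o with _ | t
    · rw [hrn] at h
      have := (hind 1 0 (by rw [one_smul, zero_smul, add_zero]; exact h)).1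
      exact one_ne_zero this
    · rw [hrs] at h
      have := (hind t 1 (by rw [one_smul, add_comm]; exact h)).2
      exact one_ne_zero this
  have hprop : ∀ w ∈ W, w ≠ 0 → ∃ o : Option K, ∃ c : K, c ≠ 0 ∧ w = c • rep o := by
    intro w hw hne
    obtain ⟨α, β, h⟩ := hgen w hw
    by_cases hβ : β = 0
    · refine ⟨none, α, ?_, ?_⟩
      · rintro rfl
        exact hne (by rw [h, hβ, zero_smul, zero_smul, add_zero])
      · rw [hrn, h, hβ, zero_smul, add_zero]
    · refine ⟨some (α / β), β, hβ, ?_⟩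
      rw [hrs, h, smul_add, smul_smul, mul_div_cancel₀ _ hβ, add_comm]
  have hf : ∀ i : {i // A i ∈ W}, ∃ o : Option K, ∃ c : K, c ≠ 0 ∧ A i.1 = c • rep o :=
    fun i => hprop _ i.2 (hA.1 i.1)
  choose f c hc hfc using hf
  have hinj : Function.Injective f := by
    intro i j hij
    by_contra hne
    refine hA.2 i.1 j.1 (fun h => hne (Subtype.ext h)) (c i / c j) ?_
    rw [hfc i, hfc j, hij, smul_smul, div_mul_cancel₀ _ (hc j)]
  obtain ⟨T, hT⟩ : ∃ T : Finset (Option K), T = (Finset.univ.image f)ᶜ := ⟨_, rfl⟩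
  have hcard : T.card + Nat.card {i // A i ∈ W} = Fintype.card K + 1 := by
    have h1 : (Finset.univ.image f).card = Nat.card {i // A i ∈ W} := by
      rw [Finset.card_image_of_injective _ hinj, Finset.card_univ, Nat.card_eq_fintype_card]
    rw [hT, ← h1, Finset.card_compl_add_card, Fintype.card_option]
  have hev : ∀ (x a : Fin 3 → K), eval x (lin a) = ∑ j, a j * x j := by
    intro x a
    unfold lin
    rw [map_sum]
    exact Finset.sum_congr rfl fun j _ => by rw [map_mul, eval_C, eval_X]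
  have hmem : (∏ o ∈ T, lin (rep o)) ∈ VD A T.card := by
    constructor
    · have h2 := IsHomogeneous.prod T (fun o => lin (rep o)) (fun _ => 1) (fun o _ => by
        unfold lin
        exact IsHomogeneous.sum _ _ _ fun i _ => isHomogeneous_C_mul_X _ _)
      rwa [Finset.sum_const, smul_eq_mul, mul_one] at h2
    · intro x hx
      have hz : ∃ o, ∑ j, rep o j * x j = 0 := by
        by_cases h0 : ∑ j, w0 j * x j = 0
        · exact ⟨none, by rw [hrn]; exact h0⟩
        · refine ⟨some (-(∑ j, w1 j * x j) / ∑ j, w0 j * x j), ?_⟩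
          rw [hrs]
          have h3 : ∀ t : K, ∑ j, (w1 + t • w0) j * x j = (∑ j, w1 j * x j) +
              t * ∑ j, w0 j * x j := by
            intro t
            rw [Finset.mul_sum, ← Finset.sum_add_distrib]
            refine Finset.sum_congr rfl fun j _ => ?_
            rw [Pi.add_apply, Pi.smul_apply, smul_eq_mul]
            ring
          rw [h3, div_mul_cancel₀ _ h0]
          ring
      obtain ⟨o, ho⟩ := hz
      have hoT : o ∈ T := by
        rw [hT, Finset.mem_compl, Finset.mem_image]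
        rintro ⟨i, -, rfl⟩
        refine hx i.1 ?_
        have h4 : ∀ j, A i.1 j * x j = c i * (rep (f i) j * x j) := by
          intro j
          rw [hfc i, Pi.smul_apply, smul_eq_mul]
          ring
        rw [Finset.sum_congr rfl fun j _ => h4 j, ← Finset.mul_sum, ho, mul_zero]
      rw [map_prod]
      refine Finset.prod_eq_zero hoT ?_
      rw [hev]
      exact ho
  have hne : (∏ o ∈ T, lin (rep o)) ≠ 0 :=
    Finset.prod_ne_zero_iff.2 fun o _ => lin_ne_zero (hrep0 o)
  have hu : u ≤ T.card := by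
    by_contra hlt
    have h5 := hV T.card (not_le.1 hlt)
    rw [h5] at hmem
    exact hne ((Submodule.mem_bot K).1 hmem)
  omega

end Pool.Agent.H6.TD
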