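import Pool.Agent.H79.TD.Stm2

/-!
# JAC
-/

set_option autoImplicit false

open MvPolynomial

namespace Pool.Agent.H6.TD

open Pool.Agent.H77.TF Pool.Agent.H79.TD

/-- The factors of a form are forms. -/
theorem hom_factor2 {K : Type} [Field K] {p q : MvPolynomial (Fin 2) K} {n : ℕ}
    (h : (p * q).IsHomogeneous n) (hp : p ≠ 0) (hq : q ≠ 0) :
    p.IsHomogeneous p.totalDegree ∧ p.totalDegree + q.totalDegree = n := by
  have h1 : p.totalDegree + q.totalDegree = n := by
    rw [← totalDegree_mul_of_isDomain hp hq]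
    exact h.totalDegree (mul_ne_zero hp hq)
  refine ⟨?_, h1⟩
  have hord : (n : ℕ∞) ≤ (p : MvPowerSeries (Fin 2) K).order +
      (q : MvPowerSeries (Fin 2) K).order := by
    rw [← MvPowerSeries.order_mul, ← MvPolynomial.coe_mul]
    refine MvPowerSeries.le_order fun d hd => ?_
    rw [MvPolynomial.coeff_coe]
    refine h.coeff_eq_zero ?_
    have : d.degree < n := by exact_mod_cast hd
    omega
  have hqo : (q : MvPowerSeries (Fin 2) K).order ≤ (q.totalDegree : ℕ∞) := by
    obtain ⟨s, hs⟩ := support_nonempty.2 hq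
    refine le_trans (MvPowerSeries.order_le (d := s) ?_) ?_
    · rw [MvPolynomial.coeff_coe]
      exact mem_support_iff.1 hs
    · have := le_totalDegree hs
      exact_mod_cast this
  intro s hs
  have e1 : (p : MvPowerSeries (Fin 2) K).order ≤ (s.degree : ℕ∞) :=
    MvPowerSeries.order_le (d := s) (by rw [MvPolynomial.coeff_coe]; exact hs)
  have e2 : (n : ℕ∞) ≤ (s.degree : ℕ∞) + (q.totalDegree : ℕ∞) :=
    hord.trans (add_le_add e1 hqo)
  have e3 : n ≤ s.degree + q.totalDegree := by exact_mod_cast e2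
  have e4 : s.degree ≤ p.totalDegree := le_totalDegree (mem_support_iff.2 hs)
  change (Finsupp.weight (fun _ : Fin 2 => 1)) s = p.totalDegree
  rw [← Finsupp.degree_eq_weight_one]
  omega

theorem t_JAC : S_JAC := by
  intro K _ e v hch hv hJ
  obtain ⟨a, ha⟩ : ∃ a, a = v 0 := ⟨_, rfl⟩
  obtain ⟨b, hb⟩ : ∃ b, b = v 1 := ⟨_, rfl⟩
  have hevl : ∀ c : Fin 2 → K, evl c v = C (c 0) * a + C (c 1) * b := by
    intro c
    unfold evl
    rw [Fin.sum_univ_two, ha, hb]
  have hae := hv 0
  have hbe := hv 1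
  rw [← ha] at hae
  rw [← hb] at hbe
  rw [← ha, ← hb] at hJ
  by_cases ha0 : a = 0
  · refine ⟨![1, 0], ?_, ?_⟩
    · intro h
      have h2 := congrFun h 0
      simp at h2
    · rw [hevl, ha0]
      simp
  by_cases hb0 : b = 0
  · refine ⟨![0, 1], ?_, ?_⟩
    · intro h
      have h2 := congrFun h 1
      simp at h2
    · rw [hevl, hb0]
      simp
  have hcast : ∀ k : ℕ, 0 < k → k ≤ e → (k : MvPolynomial (Fin 2) K) ≠ 0 := by
    intro k h1 h2 h3
    refine hch k h1 h2 (C_injective (Fin 2) K ?_)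
    rw [map_natCast, h3, map_zero]
  have hW : ∀ j, a * pderiv j b = b * pderiv j a := by
    rcases Nat.eq_zero_or_pos e with he | he
    · intro j
      rw [he, ← totalDegree_zero_iff_isHomogeneous, totalDegree_eq_zero_iff_eq_C] at hae hbe
      rw [hae, hbe, pderiv_C, pderiv_C, mul_zero, mul_zero]
    · have hE1 := hae.sum_X_mul_pderiv
      have hE2 := hbe.sum_X_mul_pderiv
      rw [Fin.sum_univ_two, nsmul_eq_mul] at hE1 hE2
      have hk := hcast e he le_rfl
      have h1 : (e : MvPolynomial (Fin 2) K) * (a * pderiv 1 b - b * pderiv 1 a) = 0 := by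
        linear_combination (-pderiv 1 b) * hE1 + pderiv 1 a * hE2 + X 0 * hJ
      have h0 : (e : MvPolynomial (Fin 2) K) * (a * pderiv 0 b - b * pderiv 0 a) = 0 := by
        linear_combination (-pderiv 0 b) * hE1 + pderiv 0 a * hE2 - X 1 * hJ
      have h1' := (mul_eq_zero.1 h1).resolve_left hk
      have h0' := (mul_eq_zero.1 h0).resolve_left hk
      intro j
      fin_cases j
      · exact sub_eq_zero.1 h0'
      · exact sub_eq_zero.1 h1'
  obtain ⟨a1, b1, g, hrel, hga, hgb⟩ := UniqueFactorizationMonoid.exists_reduced_factors a ha0 b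
  have hg0 : g ≠ 0 := by
    rintro rfl
    exact ha0 (by rw [← hga, zero_mul])
  have ha1 : a1 ≠ 0 := by
    rintro rfl
    exact ha0 (by rw [← hga, mul_zero])
  have hb1 : b1 ≠ 0 := by
    rintro rfl
    exact hb0 (by rw [← hgb, mul_zero])
  obtain ⟨c1, c2⟩ := hom_factor2 (p := a1) (q := g) (n := e) (by rw [mul_comm, hga]; exact hae)
    ha1 hg0
  obtain ⟨-, d2⟩ := hom_factor2 (p := b1) (q := g) (n := e) (by rw [mul_comm, hgb]; exact hbe)
    hb1 hg0
  have hder : ∀ j, pderiv j a1 = 0 := by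
    intro j
    have h1 := hW j
    rw [← hga, ← hgb, pderiv_mul, pderiv_mul] at h1
    have h2 : (g * g) * (a1 * pderiv j b1 - b1 * pderiv j a1) = 0 := by
      linear_combination h1
    have h3 := (mul_eq_zero.1 h2).resolve_left (mul_ne_zero hg0 hg0)
    have h4 : a1 ∣ b1 * pderiv j a1 := ⟨pderiv j b1, (sub_eq_zero.1 h3).symm⟩
    have h5 : a1 ∣ pderiv j a1 := hrel.dvd_of_dvd_mul_left h4
    by_contra hne
    obtain ⟨q, hq⟩ := h5
    have hq0 : q ≠ 0 := by
      rintro rfl
      exact hne (by rw [hq, mul_zero])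
    have h6 := (c1.pderiv (i := j)).totalDegree hne
    rw [hq, totalDegree_mul_of_isDomain ha1 hq0] at h6
    have h7 : a1.totalDegree = 0 := by omega
    rw [totalDegree_eq_zero_iff_eq_C] at h7
    exact hne (by rw [h7, pderiv_C])
  have hk0 : a1.totalDegree = 0 := by
    by_contra hne
    have hE := c1.sum_X_mul_pderiv
    rw [Fin.sum_univ_two, nsmul_eq_mul, hder, hder, mul_zero, mul_zero, add_zero] at hE
    rcases mul_eq_zero.1 hE.symm with h | h
    · exact hcast _ (Nat.pos_of_ne_zero hne) (by omega) h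
    · exact ha1 h
  have hk1 : b1.totalDegree = 0 := by omega
  rw [totalDegree_eq_zero_iff_eq_C] at hk0 hk1
  obtain ⟨α, hα⟩ : ∃ α, α = coeff 0 a1 := ⟨_, rfl⟩
  obtain ⟨β, hβ⟩ : ∃ β, β = coeff 0 b1 := ⟨_, rfl⟩
  rw [← hα] at hk0
  rw [← hβ] at hk1
  refine ⟨![β, -α], ?_, ?_⟩
  · intro h
    have h2 := congrFun h 1
    have h3 : -α = 0 := h2
    exact ha1 (by rw [hk0, neg_eq_zero.1 h3, C_0])
  · rw [hevl, ← hga, ← hgb, hk0, hk1]
    change C β * (g * C α) + C (-α) * (g * C β) = 0
    rw [C_neg]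
    ring

end Pool.Agent.H6.TD
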